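import Pool.Agent.helper32.QS.Spec

set_option autoImplicit false

open scoped BigOperators commutatorElement

namespace QS

/-- a prime dividing the order of a normal subgroup of a quotient extension -/
theorem HH3_comap {G : Type} [Group G] [Finite G] (p : ℕ) (hp : p.Prime) (K : Subgroup G)
    [K.Normal] (hK : ¬ p ∣ Nat.card K) (N' : Subgroup (G ⧸ K)) (hN' : ¬ p ∣ Nat.card N') :
    ¬ p ∣ Nat.card (N'.comap (QuotientGroup.mk' K)) := by
  intro hdiv
  haveI : Fact p.Prime := ⟨hp⟩
  obtain ⟨x, hx⟩ := exists_prime_orderOf_dvd_card' p hdiv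
  by_cases h1 : ((x : G) : G ⧸ K) = 1
  · have hxK : (x : G) ∈ K := (QuotientGroup.eq_one_iff _).1 h1
    apply hK
    have h2 : orderOf (⟨(x : G), hxK⟩ : K) = p := by
      rw [Subgroup.orderOf_mk, Subgroup.orderOf_coe, hx]
    rw [← h2]
    exact orderOf_dvd_natCard _
  · apply hN'
    have hxN : ((x : G) : G ⧸ K) ∈ N' := x.2
    have h2 : orderOf (⟨((x : G) : G ⧸ K), hxN⟩ : N') = p := by
      apply orderOf_eq_prime
      · apply Subtype.ext
        change ((x : G) : G ⧸ K) ^ p = 1
        rw [← QuotientGroup.mk_pow]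
        have : (x : G) ^ p = 1 := by
          have h3 : x ^ p = 1 := by rw [← hx]; exact pow_orderOf_eq_one x
          have := congrArg Subtype.val h3
          simpa using this
        rw [this]
        rfl
      · intro h4
        apply h1
        exact congrArg Subtype.val h4
    rw [← h2]
    exact orderOf_dvd_natCard _

/-- the largest normal subgroup of order prime to `p` -/
theorem HH3_largest (G : Type) [Group G] [Finite G] (p : ℕ) (hp : p.Prime) :
    ∃ K : Subgroup G, K.Normal ∧ ¬ p ∣ Nat.card K ∧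
      ∀ N : Subgroup G, N.Normal → ¬ p ∣ Nat.card N → N ≤ K := by
  classical
  haveI : Finite (Subgroup G) := inferInstance
  have hne : ({K : Subgroup G | K.Normal ∧ ¬ p ∣ Nat.card K} : Set (Subgroup G)).Nonempty := by
    refine ⟨⊥, inferInstance, ?_⟩
    rw [Subgroup.card_bot]
    exact fun h => hp.one_lt.ne' (Nat.dvd_one.1 h)
  obtain ⟨K, ⟨hKn, hKp⟩, hmax⟩ := Set.exists_max_image
    {K : Subgroup G | K.Normal ∧ ¬ p ∣ Nat.card K} (fun K => Nat.card K) (Set.toFinite _) hne
  refine ⟨K, hKn, hKp, ?_⟩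
  intro N hN hNp
  have hsup : (K ⊔ N).Normal := inferInstance
  have hcard : ¬ p ∣ Nat.card (K ⊔ N : Subgroup G) := by
    intro hd
    have h1 : Nat.card (K ⊔ N : Subgroup G) = Nat.card K * K.relIndex (K ⊔ N) := by
      have h2 := Subgroup.relIndex_mul_relIndex (⊥ : Subgroup G) K (K ⊔ N) bot_le le_sup_left
      rw [Subgroup.relIndex_bot_left, Subgroup.relIndex_bot_left] at h2
      exact h2.symm
    rw [h1, Subgroup.relIndex_sup_left] at hd
    rcases (hp.dvd_mul).1 hd with h | h
    · exact hKp h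
    · exact hNp (h.trans (Subgroup.relIndex_dvd_card K N))
  have h3 := hmax (K ⊔ N) ⟨hsup, hcard⟩
  have h4 : K = K ⊔ N := Subgroup.eq_of_le_of_card_ge le_sup_left h3
  rw [h4]
  exact le_sup_right

theorem HH3 (hHEI : HEI_stmt) (hHH2 : HH2_stmt) : HH3_stmt := by
  intro G _ _ p hp hp2 hsol hno
  haveI : Fact p.Prime := ⟨hp⟩
  obtain ⟨K, hKn, hKp, hKmax⟩ := HH3_largest G p hp
  haveI := hKn
  haveI := hsol
  have hq : Group.IsSolvable (G ⧸ K) := inferInstance
  have hqn : ∀ N : Subgroup (G ⧸ K), N.Normal → ¬ p ∣ Nat.card N → N = ⊥ := by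
    intro N hN hNp
    have h1 := hKmax (N.comap (QuotientGroup.mk' K)) (hN.comap _) (HH3_comap p hp K hKp N hNp)
    rw [eq_bot_iff]
    intro x hx
    obtain ⟨g, rfl⟩ := QuotientGroup.mk'_surjective K x
    have hg : g ∈ K := h1 hx
    exact (QuotientGroup.eq_one_iff g).2 hg
  obtain ⟨S⟩ : Nonempty (Sylow p G) := inferInstance
  have hScomm : ∀ x ∈ (S : Subgroup G), ∀ y ∈ (S : Subgroup G), x ^ p = 1 → y ^ p = 1 →
      x * y = y * x := by
    intro x hx y hy hx1 hy1
    have h := hHEI (S : Subgroup G) p hp S.isPGroup' (by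
      intro a b hab
      obtain ⟨h1, h2, h3, h4, h5⟩ := hab
      refine hno (a : G) (b : G) ⟨?_, ?_, ?_, ?_, ?_⟩
      · simpa using congrArg Subtype.val h1
      · simpa using congrArg Subtype.val h2
      · intro h6
        apply h3
        apply Subtype.ext
        simpa [commutatorElement_def] using h6
      · simpa [commutatorElement_def] using congrArg Subtype.val h4
      · simpa [commutatorElement_def] using congrArg Subtype.val h5)
      ⟨x, hx⟩ ⟨y, hy⟩ (Subtype.ext (by simpa using hx1)) (Subtype.ext (by simpa using hy1))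
    simpa using congrArg Subtype.val h
  -- elements of `S` mapping into `K` are trivial
  have hSK : ∀ s ∈ (S : Subgroup G), s ∈ K → s = 1 := by
    intro s hs hsK
    obtain ⟨k, hk⟩ := S.isPGroup' ⟨s, hs⟩
    have hk' : s ^ p ^ k = 1 := by simpa using congrArg Subtype.val hk
    have h1 : orderOf s ∣ p ^ k := orderOf_dvd_of_pow_eq_one hk'
    have h2 : orderOf s ∣ Nat.card K := by
      have h3 : orderOf (⟨s, hsK⟩ : K) = orderOf s := Subgroup.orderOf_mk _ _
      rw [← h3]
      exact orderOf_dvd_natCard _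
    have h4 : Nat.Coprime (p ^ k) (Nat.card K) :=
      Nat.Coprime.pow_left k ((Nat.Prime.coprime_iff_not_dvd hp).2 hKp)
    have h5 : orderOf s = 1 := Nat.eq_one_of_dvd_coprimes h4 h1 h2
    exact orderOf_eq_one_iff.1 h5
  -- the Sylow subgroup of the quotient
  let S' : Sylow p (G ⧸ K) := S.mapSurjective (QuotientGroup.mk'_surjective K)
  have hS' : (S' : Subgroup (G ⧸ K)) = (S : Subgroup G).map (QuotientGroup.mk' K) :=
    Sylow.coe_mapSurjective _ _
  have hlift : ∀ x ∈ (S' : Subgroup (G ⧸ K)), x ^ p = 1 → ∃ s ∈ (S : Subgroup G), s ^ p = 1 ∧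
      QuotientGroup.mk' K s = x := by
    intro x hx hxp
    rw [hS'] at hx
    obtain ⟨s, hs, rfl⟩ := Subgroup.mem_map.1 hx
    refine ⟨s, hs, ?_, rfl⟩
    apply hSK _ ((S : Subgroup G).pow_mem hs p)
    rw [← map_pow] at hxp
    exact (QuotientGroup.eq_one_iff _).1 hxp
  have hcommQ := hHH2 (G ⧸ K) p hp hp2 hq hqn S' (by
    intro x hx y hy hx1 hy1
    obtain ⟨s, hs, hs1, rfl⟩ := hlift x hx hx1
    obtain ⟨t, ht, ht1, rfl⟩ := hlift y hy hy1
    rw [← map_mul, ← map_mul, hScomm s hs t ht hs1 ht1])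
  -- the normal `p`-subgroup of `G ⧸ K`
  let P : Subgroup (G ⧸ K) :=
    { carrier := {x | x ^ p = 1}
      one_mem' := one_pow p
      mul_mem' := by
        intro a b ha hb
        have ha' : a ^ p = 1 := ha
        have hb' : b ^ p = 1 := hb
        have hc : Commute a b := hcommQ a b ha' hb'
        change (a * b) ^ p = 1
        rw [hc.mul_pow, ha', hb', one_mul]
      inv_mem' := by
        intro a ha
        have ha' : a ^ p = 1 := ha
        change (a⁻¹) ^ p = 1
        rw [inv_pow, ha', inv_one] }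
  haveI hPn : P.Normal := by
    refine ⟨?_⟩
    intro n hn g
    have hn' : n ^ p = 1 := hn
    change (g * n * g⁻¹) ^ p = 1
    rw [conj_pow, hn', mul_one, mul_inv_cancel]
  have hPp : IsPGroup p P := by
    intro g
    refine ⟨1, ?_⟩
    apply Subtype.ext
    have : (g : G ⧸ K) ^ p = 1 := g.2
    simpa using this
  have hPS : P ≤ (S' : Subgroup (G ⧸ K)) := by
    have h1 : IsPGroup p (P ⊔ (S' : Subgroup (G ⧸ K)) : Subgroup (G ⧸ K)) :=
      hPp.to_sup_of_normal_left S'.isPGroup'
    have h2 := S'.is_maximal' h1 le_sup_right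
    rw [← h2]
    exact le_sup_left
  let E : Subgroup G :=
    { carrier := {x | x ∈ (S : Subgroup G) ∧ x ^ p = 1}
      one_mem' := ⟨(S : Subgroup G).one_mem, one_pow p⟩
      mul_mem' := by
        rintro a b ⟨ha, ha'⟩ ⟨hb, hb'⟩
        have hc : Commute a b := hScomm a ha b hb ha' hb'
        refine ⟨(S : Subgroup G).mul_mem ha hb, ?_⟩
        rw [hc.mul_pow, ha', hb', one_mul]
      inv_mem' := by
        rintro a ⟨ha, ha'⟩
        exact ⟨(S : Subgroup G).inv_mem ha, by rw [inv_pow, ha', inv_one]⟩ }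
  refine ⟨K, E, hKn, hKp, hKmax, ⟨?_, ?_⟩, ?_⟩
  · intro x hx y hy
    exact hScomm x hx.1 y hy.1 hx.2 hy.2
  · intro x hx
    exact hx.2
  · intro x hx
    have hx' : QuotientGroup.mk' K x ∈ P := by
      change (QuotientGroup.mk' K x) ^ p = 1
      rw [← map_pow, hx, map_one]
    obtain ⟨s, hs, hs1, hsx⟩ := hlift _ (hPS hx') hx'
    have h1 : x * s⁻¹ ∈ K := by
      apply (QuotientGroup.eq_one_iff _).1
      have : QuotientGroup.mk' K (x * s⁻¹) = 1 := by
        rw [map_mul, map_inv, hsx, mul_inv_cancel]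
      exact this
    have h2 : x = (x * s⁻¹) * s := by group
    rw [h2]
    exact Subgroup.mul_mem_sup h1 ⟨hs, hs1⟩

end QS
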